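import Mathlib
import Pool.Agent.Helper94.Tarski.Indic

set_option autoImplicit false

namespace Pool.Agent.Results.MP_b555a2_al.LawCase

/-- every nontrivial finitely generated subgroup maps onto `ℤ` -/
def LocInd (G : Type) [Group G] : Prop :=
  ∀ H : Subgroup G, H.FG → H ≠ ⊥ → ∃ φ : H →* Multiplicative ℤ, Function.Surjective φ

/-- `K[G]` embeds into a division ring -/
def Embeds (K G : Type) [Field K] [Group G] : Prop :=
  ∃ (D : Type) (_ : DivisionRing D) (f : MonoidAlgebra K G →+* D), Function.Injective f

/-- (1) A right-ordered group satisfying a nontrivial law is locally indicable. (2) Hence, for every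
field `K` such that group algebras over `K` of locally indicable groups embed into division rings,
so do the group algebras over `K` of right-ordered groups satisfying a nontrivial law. -/
theorem result :
    ∀ (G : Type) [Group G] [LinearOrder G], (∀ a b c : G, a ≤ b → a * c ≤ b * c) →
      (∃ (r : ℕ) (w : FreeGroup (Fin r)), w ≠ 1 ∧ ∀ f : Fin r → G, FreeGroup.lift f w = 1) →
        LocInd G ∧
        ∀ (K : Type) [Field K], (∀ (L : Type) [Group L], LocInd L → Embeds K L) →
          Embeds K G := by
  classical
  rintro G _ _ hmul ⟨r, w, hw, hlaw⟩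
  have hLI : LocInd G := by
    intro H hH hHb
    have hnt : Nontrivial H := (Subgroup.nontrivial_iff_ne_bot H).2 hHb
    have hmul' : ∀ a b c : G, a < b → a * c < b * c := fun a b c h =>
      lt_of_le_of_ne (hmul a b c h.le) (fun he => h.ne (mul_right_cancel he))
    refine Pool.Agent.Helper94.Tarski.surj_of_law (G := H)
      ((Group.fg_iff_subgroup_fg H).2 hH)
      (fun a b => (a : G) < (b : G)) (fun a => lt_irrefl _) (fun a b c => lt_trans)
      (fun a b => by
        rcases lt_trichotomy (a : G) (b : G) with h | h | h
        · exact Or.inl h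
        · exact Or.inr (Or.inl (Subtype.ext h))
        · exact Or.inr (Or.inr h))
      (fun a b c h => hmul' _ _ _ h) r w hw ?_
    intro f
    have h1 := hlaw (fun i => (f i : G))
    have h2 : (FreeGroup.lift (fun i => (f i : G))) = H.subtype.comp (FreeGroup.lift f) := by
      ext i
      simp
    rw [h2] at h1
    exact Subtype.ext h1
  exact ⟨hLI, fun K _ h => h G hLI⟩

end Pool.Agent.Results.MP_b555a2_al.LawCase
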